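import Pool.Agent.Work.MP_8b6acb_ti_helper32.S0T
import Pool.Agent.Work.MP_8b6acb_ti_helper76.TISasm
import Pool.Agent.Work.MP_8b6acb_cost_helper3.CostV

/-!
# The set kernel without light elements (helper77)

`S0K`: (S0') for the set kernel.  `J00`: the typewise inequality when no set of one element has
label `B` and no complement of one element has label `A`.
-/

namespace R5

namespace Z0

open Finset T7 Two

variable {α : Type} [DecidableEq α]

section rev

variable {σ : Finset α → Lab} {W : Finset α} {π : List α}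

/-- the min kernel in first exit form is at most the set kernel -/
theorem phiM_rev (hπ : π ∈ seqs W.card W) (ρ : α → ℝ) :
    psum (phiM (dual σ W) ρ (W.card : ℝ) (W \ W)) (W \ W) π.reverse ≤ K.cstK σ ρ W π := by
  have hW : W ⊆ W := Subset.rfl
  unfold K.cstK
  rw [bridge hW hπ]
  refine sum_le_sum fun k hk => ?_
  rw [mem_range, ← length_of_mem hπ] at hk
  rw [Th_take _ W hk]
  obtain ⟨h1, h2, h3, h4⟩ := path_facts (σ := σ) hW hπ hk
  have hnd := (mem_seqs_card.1 hπ).1
  have hkl : (π.take k).reverse.length = k := by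
    rw [List.length_reverse, List.length_take]; omega
  unfold phiM
  rw [h3, h4, nx_eq hnd hk, sum_singleton, hkl, sdiff_self, bot_eq_empty, sdiff_empty,
    sdiff_empty]
  have h5 := isE_rev (σ := σ) hW hπ hk
  have f1 : 0 ≤ -Real.log (fw σ (pre π k)) :=
    neg_nonneg.2 (Real.log_nonpos (fw_nonneg _ _) (fw_le_one _ _))
  have f2 : 0 ≤ -Real.log (fwb σ (pre π (k + 1))) :=
    neg_nonneg.2 (Real.log_nonpos (fwb_nonneg _ _) (fwb_le_one _ _))
  apply add_le_add
  · by_cases hE : exE σ π k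
    · rw [iE_pos hE, if_pos (h5.2 ⟨hE.2, hE.1 k (by simp)⟩), iA_pos hE.1]
      unfold Lf
      linarith
    · rw [iE_neg hE, zero_mul]
      by_cases h6 : isE (dual σ W) (W \ pre π (k + 1)) π[k]
      · rw [if_pos h6, iA_neg fun h => hE ⟨h, (h5.1 h6).1⟩, zero_mul]
      · rw [if_neg h6]
  · have h7 : dual σ W (W \ pre π (k + 1)) = Lab.X ↔ σ (pre π (k + 1)) = Lab.X := by
      rw [dual_sdiff σ h1, flip_eq_X]
    by_cases hE : exX σ π k
    · rw [iX_pos hE, if_pos (h7.2 hE.2), iA_pos hE.1]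
      unfold Lf
      linarith
    · rw [iX_neg hE, zero_mul]
      by_cases h6 : dual σ W (W \ pre π (k + 1)) = Lab.X
      · rw [if_pos h6, iA_neg fun h => hE ⟨h, h7.1 h6⟩, zero_mul]
      · rw [if_neg h6]

end rev

/-- (S0') for the set kernel -/
theorem S0K (σ : Finset α → Lab) (W : Finset α) (ρ : α → ℝ) (h0 : σ ∅ = Lab.A)
    (hB : σ W = Lab.B) (hρ : ∀ x ∈ W, 0 < ρ x ∧ ρ x ≤ 1) :
    lamn W.card * Av W (fun π => (∑ k ∈ range W.card, iE σ π k) *
      ((W.card : ℝ) - kN σ π - ((W.filter (fun x => σ {x} = Lab.B)).card : ℝ))) ≤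
      Av W (K.cstK σ ρ W) := by
  have hW : W ⊆ W := Subset.rfl
  have hWW : W \ (W \ W) = W := Finset.sdiff_sdiff_eq_self hW
  have hA : dual σ W (W \ W) = Lab.A := by rw [dual_sdiff σ hW, flip_eq_A]; exact hB
  have hD : dual σ W W = Lab.B := by
    rw [dual_flip, sdiff_self, bot_eq_empty, flip_eq_B]; exact h0
  have h0' : σ ∅ ≠ Lab.B := by rw [h0]; decide
  have e1 := S0 (dual σ W) W (W \ W) sdiff_subset hA hD ρ
    (by rw [hWW]; exact fun x hx => (hρ x hx).1) (by rw [hWW]; exact fun x hx => (hρ x hx).2)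
    W.card (by rw [hWW])
  have ea : (W \ (W \ W)).filter (fun x => dual σ W (W.erase x) = Lab.A) =
      W.filter (fun x => σ {x} = Lab.B) := by
    rw [hWW]
    refine filter_congr fun x hx => ?_
    rw [dual_flip, flip_eq_A]
    have : W \ W.erase x = {x} := by
      ext z
      simp only [mem_sdiff, mem_erase, mem_singleton]
      constructor
      · rintro ⟨h1, h2⟩
        by_contra h3
        exact h2 ⟨h3, h1⟩
      · rintro rfl
        exact ⟨hx, fun h => h.1 rfl⟩
    rw [this]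
  rw [ea] at e1
  simp only [hWW] at e1
  rw [← Eo_reverse W (leI _ _), ← Eo_reverse W (psum _ _),
    ← Eo_reverse W (fun π => leI (dual σ W) (W \ W) π * (arun (dual σ W) (W \ W) π : ℝ))] at e1
  have t2 : Eo W (fun π => leI (dual σ W) (W \ W) π.reverse) = Eo W (fun π =>
      ∑ k ∈ range W.card, iE σ π k) := Eo_congr fun π hπ => leI_rev hW hπ
  have t3 : Eo W (fun π => psum (phiM (dual σ W) ρ (W.card : ℝ) (W \ W)) (W \ W) π.reverse) ≤
      Eo W (K.cstK σ ρ W) := Eo_mono fun π hπ => phiM_rev hπ ρ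
  have t4 : Eo W (fun π => leI (dual σ W) (W \ W) π.reverse *
      (arun (dual σ W) (W \ W) π.reverse : ℝ)) = Eo W (fun π =>
      (∑ k ∈ range W.card, iE σ π k) * ((W.card : ℝ) - 1 - kN σ π)) := Eo_congr fun π hπ => by
    have hm := mem_seqs_card.1 hπ
    have h1 := arun_rev σ W h0' π hm.1 (fun x hx => by
      rw [← hm.2]; exact List.mem_toFinset.2 hx) (by rw [hm.2]; exact hB)
    rw [hm.2, length_of_mem hπ] at h1
    have h2 : (arun (dual σ W) (W \ W) π.reverse : ℝ) = (W.card : ℝ) - 1 - kN σ π := by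
      have : (arun (dual σ W) (W \ W) π.reverse : ℝ) + 1 + (kN σ π : ℝ) = (W.card : ℝ) := by
        exact_mod_cast h1
      linarith
    rw [leI_rev hW hπ, h2]
  rw [t2, t4] at e1
  have r1 : Av W (fun π => (∑ k ∈ range W.card, iE σ π k) *
      ((W.card : ℝ) - kN σ π - ((W.filter (fun x => σ {x} = Lab.B)).card : ℝ))) =
      Eo W (fun π => (∑ k ∈ range W.card, iE σ π k) * ((W.card : ℝ) - 1 - kN σ π)) +
      (1 - ((W.filter (fun x => σ {x} = Lab.B)).card : ℝ)) *
        Eo W (fun π => ∑ k ∈ range W.card, iE σ π k) := by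
    rw [← Eo_mul, ← Eo_add]
    refine Eo_congr fun π _ => ?_
    ring
  rw [r1]
  exact e1.trans t3

/-- the last level of a prefix -/
theorem kN_take_le {τ : Finset α → Lab} {D : Finset α} {π : List α} (h0 : τ ∅ ≠ Lab.B)
    (hD : τ D = Lab.B) (hπ : π ∈ seqs D.card D) {j : ℕ} (hj : kN τ π < j) (hjD : j ≤ D.card) :
    kN τ (π.take j) ≤ kN τ π := by
  have hB : ∀ i, kN τ π < i → i ≤ D.card → τ (pre π i) = Lab.B := fun i hi hiD =>
    ((allB_iff h0 hD hπ i).2 hi) i (by rw [mem_Icc, length_of_mem hπ]; exact ⟨le_rfl, hiD⟩)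
  have hc : (pre π j).card = j := card_pre_of_mem hπ hjD
  have hm : π.take j ∈ seqs (pre π j).card (pre π j) :=
    mem_seqs_card.2 ⟨(mem_seqs_card.1 hπ).1.sublist (List.take_sublist _ _), rfl⟩
  have h1 : allB τ (π.take j) (kN τ π + 1) := by
    intro i hi
    rw [mem_Icc, List.length_take, length_of_mem hπ] at hi
    rw [pre_take (by omega)]
    exact hB i (by omega) (by omega)
  have h2 := (allB_iff h0 (hB j hj hjD) hm (kN τ π + 1)).1 h1
  omega

/-- the sum of the `lamn` -/
theorem Lam_ge {K l : ℕ} (hK : 1 ≤ K) (h : K ≤ l) : ((l : ℝ) - K) * lamn l ≤ Lam K l := by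
  unfold Lam
  have h1 : ((l : ℝ) - K) * lamn l = ∑ j ∈ Ioc K l, lamn l := by
    rw [sum_const, Nat.card_Ioc, nsmul_eq_mul, Nat.cast_sub h]
  rw [h1]
  refine sum_le_sum fun j hj => ?_
  rw [mem_Ioc] at hj
  exact lamn_anti (by omega) hj.2

/-- **one side**, no light element -/
theorem side (τ : Finset α → Lab) (D : Finset α) (ρ : Finset α → α → ℝ)
    (mk : Finset α → Finset α) (h0 : τ ∅ = Lab.A) (hD : τ D = Lab.B)
    (hJ : ∀ x ∈ D, τ {x} ≠ Lab.B) (hρ : ∀ X ⊆ D, ∀ g ∈ D \ X, 0 < ρ X g ∧ ρ X g ≤ 1)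
    (hg : ∀ U, 0 ≤ gm mk D U) :
    lamn D.card * Av D (fun π => iE τ π (kA τ π) * ((D.card : ℝ) - kN τ π)) ≤
    ((D.card : ℝ) + 1) * (K.SGs (dual τ D) D ρ mk -
      Real.log (D.card : ℝ) * PEL (dual τ D) D) := by
  have hD' : τ D ≠ Lab.A := by rw [hD]; decide
  have h0' : τ ∅ ≠ Lab.B := by rw [h0]; decide
  refine le_trans ?_ (K.side_total_K τ D ρ (K.cset ρ mk D) h0 hD
    (fun W π => (∑ k ∈ range W.card, iE τ π k) * (Real.log (W.card : ℝ) -
      Real.log (D.card : ℝ) + lamn W.card * ((W.card : ℝ) - kN τ π))) ?_)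
  · rw [← Av_mul]
    refine Av_mono fun π hπ => ?_
    have hAN := kA_le_kN h0 hD hπ
    have hNl := kN_lt h0' hD hπ
    have hAl := kA_lt h0 hD' hπ
    have hK : 1 ≤ kN τ π := by
      by_contra hc
      have hk0 : kN τ π = 0 := by omega
      have h1 := ((allB_iff h0' hD hπ 1).2 (by omega)) 1 (by
        rw [mem_Icc, length_of_mem hπ]; omega)
      have hl0 : 0 < π.length := by rw [length_of_mem hπ]; omega
      have hx := pre_succ_eq hl0
      rw [pre_zero] at hx
      have hxD : π[0] ∈ D := pre_subset_of_mem hπ 1 (by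
        show π[0] ∈ pre π (0 + 1)
        rw [hx]
        exact mem_insert_self _ _)
      have h2 : pre π 1 = {π[0]} := hx
      rw [h2] at h1
      exact hJ _ hxD h1
    have h1 : ∀ j ∈ Ioc (kN τ π) D.card,
        iE τ π (kA τ π) * (Real.log (j : ℝ) - Real.log (D.card : ℝ) +
          lamn j * ((j : ℝ) - kN τ π)) ≤
        (∑ k ∈ range (pre π j).card, iE τ (π.take j) k) * (Real.log ((pre π j).card : ℝ) -
          Real.log (D.card : ℝ) + lamn (pre π j).card *
            (((pre π j).card : ℝ) - kN τ (π.take j))) := by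
      intro j hj
      rw [mem_Ioc] at hj
      have hc : (pre π j).card = j := card_pre_of_mem hπ hj.2
      rw [hc]
      have e1 : ∑ k ∈ range j, iE τ (π.take j) k = iE τ π (kA τ π) := by
        have e2 := sum_iE h0 hD' hπ (j := j) (by omega) (fun _ => 1)
        simp only [mul_one] at e2
        rw [← e2]
        refine sum_congr rfl fun k hk => ?_
        rw [mem_range] at hk
        apply iE_congr
        unfold exE
        rw [allA_take hk.le, pre_take hk]
      rw [e1]
      apply mul_le_mul_of_nonneg_left _ (iE_nonneg _ _ _)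
      have h3 := kN_take_le h0' hD hπ hj.1 hj.2
      have h4 : (kN τ (π.take j) : ℝ) ≤ kN τ π := by exact_mod_cast h3
      have h5 := mul_le_mul_of_nonneg_left (by linarith : (j : ℝ) - kN τ π ≤
        (j : ℝ) - kN τ (π.take j)) (Two.lamn_nonneg j)
      linarith
    refine le_trans ?_ (sum_le_sum h1)
    rw [← mul_sum]
    have h2 : ∑ j ∈ Ioc (kN τ π) D.card, (Real.log (j : ℝ) - Real.log (D.card : ℝ) +
        lamn j * ((j : ℝ) - kN τ π)) = Lam (kN τ π) D.card := by
      rw [sum_add_distrib, sum_log_Ioc hNl.le, ← sum_neg_distrib, ← sum_add_distrib]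
      unfold Lam
      refine sum_congr rfl fun j _ => ?_
      ring
    rw [h2]
    have h3 := mul_le_mul_of_nonneg_left (Lam_ge hK hNl.le) (iE_nonneg τ π (kA τ π))
    linarith
  · intro W hW hne hB
    have hne0 : W.filter (fun x => τ {x} = Lab.B) = ∅ := by
      rw [filter_eq_empty_iff]
      exact fun x hx => hJ x (hW hx)
    have h1 := S0K τ W (ρ (D \ W)) h0 hB (fun x hx => hρ (D \ W) sdiff_subset x (by
      rw [Finset.sdiff_sdiff_eq_self hW]
      exact hx))
    rw [hne0, card_empty, Nat.cast_zero] at h1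
    simp only [sub_zero] at h1
    have h2 : 0 ≤ Av W (K.gnK τ D mk W.card) := by
      refine Av_nonneg fun π _ => ?_
      unfold K.gnK
      refine sum_nonneg fun k _ => ?_
      exact add_nonneg (mul_nonneg (iE_nonneg _ _ _) (hg _)) (mul_nonneg (iX_nonneg _ _ _) (hg _))
    have h9 : Av W (fun π => K.TSx τ D ρ (K.cset ρ mk D) W π -
        Real.log (D.card : ℝ) * ∑ k ∈ range W.card, iE τ π k) =
        (Real.log (W.card : ℝ) - Real.log (D.card : ℝ)) *
          Av W (fun π => ∑ k ∈ range W.card, iE τ π k) + Av W (K.cstK τ (ρ (D \ W)) W) +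
          Av W (K.gnK τ D mk W.card) := by
      rw [← Av_mul, ← Av_add, ← Av_add]
      refine Av_congr fun π hπ => ?_
      rw [K.TSx_cset τ ρ mk hW hπ]
      ring
    have h10 : Av W (fun π => (∑ k ∈ range W.card, iE τ π k) * (Real.log (W.card : ℝ) -
        Real.log (D.card : ℝ) + lamn W.card * ((W.card : ℝ) - kN τ π))) =
        (Real.log (W.card : ℝ) - Real.log (D.card : ℝ)) *
          Av W (fun π => ∑ k ∈ range W.card, iE τ π k) +
        lamn W.card * Av W (fun π => (∑ k ∈ range W.card, iE τ π k) *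
          ((W.card : ℝ) - kN τ π)) := by
      rw [← Av_mul, ← Av_mul, ← Av_add]
      refine Av_congr fun π _ => ?_
      ring
    rw [h9, h10]
    linarith

/-- no gain for marks outside `D` -/
theorem gm_out {L D : Finset α} (h : Disjoint L D) (U : Finset α) :
    gm (fun U => L \ U) D U = 0 := by
  unfold gm
  have : (L \ U) ∩ (D \ U) = ∅ :=
    disjoint_iff_inter_eq_empty.1 (h.mono sdiff_subset sdiff_subset)
  rw [this, card_empty]
  simp [gg]

/-- **the typewise inequality without light elements** -/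
theorem J00 (τ : Finset α → Lab) (D L L' : Finset α) (ρ ρ' : Finset α → α → ℝ)
    (hl : 2 ≤ D.card) (h0 : τ ∅ = Lab.A) (hD : τ D = Lab.B)
    (hL : ∀ x ∈ D, (x ∈ L ↔ τ {x} = Lab.B)) (hA : ∀ x ∈ D, τ (D.erase x) ≠ Lab.A)
    (hL' : Disjoint L' D)
    (hρ : ∀ X ⊆ D, ∀ g ∈ D \ X, 0 < ρ X g ∧ ρ X g ≤ 1)
    (hρ' : ∀ X ⊆ D, ∀ g ∈ D \ X, 0 < ρ' X g ∧ ρ' X g ≤ 1)
    (hJ : ∀ x ∈ D, τ {x} ≠ Lab.B) :
    0 ≤ K.VAL τ D (K.vset τ D ρ L) (K.vset (dual τ D) D ρ' L') := by
  have hD' : τ D ≠ Lab.A := by rw [hD]; decide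
  have h0' : τ ∅ ≠ Lab.B := by rw [h0]; decide
  have d0 := dual_empty hD
  have dD := dual_top (D := D) h0
  have hLd : Disjoint L D := disjoint_left.2 fun x hx hxD => hJ x hxD ((hL x hxD).1 hx)
  have h1 := side τ D ρ' (fun U => L' \ U) h0 hD hJ hρ' (fun U => (gm_out hL' U).ge)
  have h2 := side (dual τ D) D ρ (fun U => L \ U) d0 dD (fun x hx => by
    rw [dual_flip, ne_eq, flip_eq_B, sdiff_singleton_eq_erase]
    exact hA x hx) hρ (fun U => (gm_out hLd U).ge)
  rw [PEL_dual_dual] at h2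
  unfold K.SGs at h1 h2
  rw [K.SGx_dual_dual] at h2
  have h3 := C1.cost1_E h0 hD
  have h4 := C1.SL_nonneg (τ := τ) (D := D) h0 (card_pos.1 (by omega))
  have h5 : Av D (fun π =>
      (((kA τ π : ℝ) + 1) * iE τ π (kA τ π) + ((D.card : ℝ) - kN τ π) * (1 - lx τ π)) /
        (D.card : ℝ) ^ 2) ≤
      lamn D.card * Av D (fun π => iE τ π (kA τ π) * ((D.card : ℝ) - kN τ π)) +
      lamn D.card * Av D (fun π => iE (dual τ D) π (kA (dual τ D) π) *
        ((D.card : ℝ) - kN (dual τ D) π)) := by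
    rw [← Av_reverse D (fun π => iE (dual τ D) π (kA (dual τ D) π) *
        ((D.card : ℝ) - kN (dual τ D) π)), ← Av_mul, ← Av_mul, ← Av_add]
    refine Av_mono fun π hπ => ?_
    have hk := kA_lt h0 hD' hπ
    have hN := kN_lt h0' hD hπ
    have hAN := kA_le_kN h0 hD hπ
    have hlR : (2 : ℝ) ≤ D.card := by exact_mod_cast hl
    have hlam := lamn_ge hl
    have hkR : (kA τ π : ℝ) + 1 ≤ D.card := by exact_mod_cast hk
    have hNR : (kN τ π : ℝ) + 1 ≤ D.card := by exact_mod_cast hN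
    have hk0 : (0 : ℝ) ≤ kA τ π := Nat.cast_nonneg _
    have hN0 : (0 : ℝ) ≤ kN τ π := Nat.cast_nonneg _
    have key : ∀ x y : ℝ, x ≤ D.card → 1 ≤ y → x / (D.card : ℝ) ^ 2 ≤ lamn D.card * y := by
      intro x y hx hy
      have e1 : x / (D.card : ℝ) ^ 2 ≤ 1 / D.card := by
        rw [div_le_div_iff₀ (by positivity) (by linarith)]
        nlinarith
      have e2 := mul_le_mul_of_nonneg_left hy (Two.lamn_nonneg D.card)
      linarith
    have e3 : iE (dual τ D) π.reverse (kA (dual τ D) π.reverse) = 1 - lx τ π := by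
      have hrev : π.reverse ∈ seqs D.card D := by
        rw [mem_seqs_card]
        have := mem_seqs_card.1 hπ
        exact ⟨List.nodup_reverse.2 this.1, by rw [List.toFinset_reverse]; exact this.2⟩
      have dD' : dual τ D D ≠ Lab.A := by rw [dD]; decide
      rw [(K.exit_kA d0 dD' hrev).1, kA_dual h0 hD hπ, pre_reverse hπ (by omega)]
      have e4 : D.card - (D.card - 1 - kN τ π + 1) = kN τ π := by omega
      rw [e4, dual_flip, Finset.sdiff_sdiff_eq_self (pre_subset_of_mem hπ _)]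
      unfold lx
      rw [if_congr flip_eq_B rfl rfl]
      split_ifs <;> norm_num
    have e5 : (D.card : ℝ) - kN (dual τ D) π.reverse = (kA τ π : ℝ) + 1 := by
      rw [kN_dual h0 hD hπ]
      have e : (D.card - 1 - kA τ π) + (kA τ π + 1) = D.card := by omega
      have e' : ((D.card - 1 - kA τ π : ℕ) : ℝ) + ((kA τ π : ℝ) + 1) = D.card := by
        exact_mod_cast e
      linarith
    rw [e3, e5]
    have i1 := iE_nonneg τ π (kA τ π)
    have i2 : 0 ≤ 1 - lx τ π := by
      rcases lx_cases τ π with h | h <;> rw [h] <;> norm_num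
    have k1 := mul_le_mul_of_nonneg_right (key ((kA τ π : ℝ) + 1) ((D.card : ℝ) - kN τ π)
      hkR (by linarith)) i1
    have k2 := mul_le_mul_of_nonneg_right (key ((D.card : ℝ) - kN τ π) ((kA τ π : ℝ) + 1)
      (by linarith) (by linarith)) i2
    have k3 : (((kA τ π : ℝ) + 1) * iE τ π (kA τ π) +
        ((D.card : ℝ) - kN τ π) * (1 - lx τ π)) / (D.card : ℝ) ^ 2 =
        ((kA τ π : ℝ) + 1) / (D.card : ℝ) ^ 2 * iE τ π (kA τ π) +
        ((D.card : ℝ) - kN τ π) / (D.card : ℝ) ^ 2 * (1 - lx τ π) := by ring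
    rw [k3]
    linarith
  have hp : (0 : ℝ) < (D.card : ℝ) + 1 := by positivity
  have h6 : 0 ≤ (D.card : ℝ) / ((D.card : ℝ) + 1) * C1.SL τ D := by positivity
  have h7 : ((D.card : ℝ) + 1) * COST1 τ D ≤ ((D.card : ℝ) + 1) *
      (K.vset τ D ρ L + K.vset (dual τ D) D ρ' L' -
        Real.log (D.card : ℝ) * (PEL τ D + PEL (dual τ D) D)) := by
    unfold K.vset K.SGs
    linarith
  have h8 := le_of_mul_le_mul_left h7 hp
  unfold K.VAL
  linarith

end Z0

end R5
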